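import Mathlib

namespace Pool.Agent.Results.MP_dace02_an.No

open Filter Topology Finset Real

/-- the Riemann type series -/
noncomputable def G (d : ℝ) (g : ℝ → ℝ) (x : ℝ) : ℝ :=
  ∑' n : ℕ, g ((n + 1) ^ 2 * x) / (n + 1 : ℝ) ^ (1 + d)

/-- the closed grid squares of side 1/N meeting the graph of f over the unit interval -/
def squares (f : ℝ → ℝ) (N : ℕ) : Set (ℤ × ℤ) :=
  {p | ∃ x ∈ Set.Icc (0 : ℝ) 1, x ∈ Set.Icc (p.1 / N : ℝ) ((p.1 + 1) / N) ∧
    f x ∈ Set.Icc (p.2 / N : ℝ) ((p.2 + 1) / N)}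

/-- the upper box dimension of the graph -/
noncomputable def upperDim (f : ℝ → ℝ) : EReal :=
  limsup (fun N : ℕ => ((log (squares f N).ncard / log N : ℝ) : EReal)) atTop

/-- condition (H) -/
def CondH (d : ℝ) (C : ℤ → ℂ) : Prop :=
  ∃ e > (0 : ℝ), Summable fun k : ℕ => ‖C (k + 1)‖ * (k + 1 : ℝ) ^ ((e + d) / 2)

/-- condition (NV) -/
def CondNV (d : ℝ) (C : ℤ → ℂ) : Prop :=
  ∃ q : ℕ, 0 < q ∧ Squarefree q ∧
    ∑' m : ℕ, C ((m + 1) ^ 2 * q) * (((m + 1) ^ 2 * q : ℝ) ^ (d / 2) : ℝ) ≠ 0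

theorem fin {f : ℝ → ℝ} (hf : Continuous f) {N : ℕ} (hN : 0 < N) : (squares f N).Finite := by
  obtain ⟨M, hM⟩ := isCompact_Icc.exists_bound_of_continuousOn (hf.continuousOn (s := Set.Icc 0 1))
  have h0 : (0 : ℝ) < N := by exact_mod_cast hN
  refine ((Set.finite_Icc (-1 : ℤ) N).prod (Set.finite_Icc ⌊-M * N - 1⌋ ⌈M * N⌉)).subset ?_
  rintro ⟨i, j⟩ ⟨x, h1, ⟨h2, h3⟩, h4, h5⟩
  obtain ⟨h6, h7⟩ := abs_le.1 (hM x h1)
  rw [div_le_iff₀ h0] at h2 h4
  rw [le_div_iff₀ h0] at h3 h5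
  refine ⟨⟨?_, ?_⟩, Int.floor_le_iff.2 ?_, Int.le_ceil_iff.2 ?_⟩
  · exact_mod_cast (by nlinarith [mul_nonneg h1.1 h0.le] : (-1 : ℝ) ≤ i)
  · exact_mod_cast (by nlinarith [h1.2] : (i : ℝ) ≤ N)
  · nlinarith
  · nlinarith

theorem count {f : ℝ → ℝ} (hf : Continuous f) {M : ℕ} (hM : 0 < M) :
    2 * M * ∑ l ∈ range M, (f (2 * l / (2 * M)) - f ((2 * l + 1) / (2 * M))) ≤
      (squares f (2 * M)).ncard := by
  have h0 : (0 : ℝ) < 2 * M := by positivity
  set J : ℕ → Finset ℤ := fun l =>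
    Icc ⌊2 * M * f ((2 * l + 1) / (2 * M))⌋ ⌊2 * M * f (2 * l / (2 * M))⌋ with hJ
  have h1 : ((((range M).sigma J).image fun p => ((2 * p.1 : ℤ), p.2) : Finset (ℤ × ℤ)) :
      Set (ℤ × ℤ)) ⊆ squares f (2 * M) := by
    simp only [coe_image, Set.image_subset_iff]
    rintro ⟨l, j⟩ h
    obtain ⟨h1, h2⟩ := mem_sigma.1 (mem_coe.1 h)
    simp only [hJ, mem_Icc, Int.floor_le_iff, Int.le_floor, mem_range] at h1 h2
    have h3 : (l + 1 : ℝ) ≤ M := by exact_mod_cast h1
    have h4 : (2 * l / (2 * M) : ℝ) ≤ (2 * l + 1) / (2 * M) := by gcongr; linarith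
    have h5 : (j / (2 * M) : ℝ) ≤ f (2 * l / (2 * M)) := (div_le_iff₀' h0).2 h2.2
    have h6 : f ((2 * l + 1) / (2 * M)) ≤ (j + 1) / (2 * M) := (le_div_iff₀' h0).2 h2.1.le
    have h7 : ∃ x ∈ Set.Icc (2 * l / (2 * M) : ℝ) ((2 * l + 1) / (2 * M)),
        f x ∈ Set.Icc (j / (2 * M) : ℝ) ((j + 1) / (2 * M)) := by
      rcases le_total (j / (2 * M) : ℝ) (f ((2 * l + 1) / (2 * M))) with h | h
      · exact ⟨_, Set.right_mem_Icc.2 h4, h, h6⟩
      · obtain ⟨x, h7, h8⟩ := intermediate_value_Icc' h4 hf.continuousOn ⟨h, h5⟩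
        exact ⟨x, h7, h8.ge, h8.le.trans (by gcongr; linarith)⟩
    obtain ⟨x, h7, h8⟩ := h7
    exact ⟨x, ⟨le_trans (by positivity) h7.1, h7.2.trans ((div_le_one h0).2 (by linarith))⟩,
      by simpa using h7, by simpa using h8⟩
  refine le_trans ?_ (Nat.cast_le.2 (Set.ncard_le_ncard h1 (fin hf (by omega))))
  rw [Set.ncard_coe_finset, card_image_of_injective _ fun p q h => by
    obtain ⟨h1, h2⟩ := Prod.mk.inj h
    exact Sigma.ext (by omega) (heq_of_eq h2), card_sigma, mul_sum, Nat.cast_sum]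
  refine sum_le_sum fun l _ => ?_
  simp only [hJ, Int.card_Icc]
  refine le_trans ?_ ((Int.cast_le.2 (Int.self_le_toNat _)).trans_eq (Int.cast_natCast _))
  push_cast
  linarith [Int.floor_le (2 * M * f ((2 * l + 1) / (2 * M))),
    Int.lt_floor_add_one (2 * M * f (2 * l / (2 * M)))]

theorem trig (m : ℕ) {M : ℕ} (hM : 0 < M) : 0 ≤ ∑ l ∈ range M,
    (cos (2 * π * m * (2 * l / (2 * M))) - cos (2 * π * m * ((2 * l + 1) / (2 * M)))) := by
  have h0 : (M : ℂ) ≠ 0 := by exact_mod_cast hM.ne'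
  set w := Complex.exp (π * m / M * Complex.I) with hw
  have h1 : ∀ k : ℕ, cos (2 * π * m * (k / (2 * M))) = (w ^ k).re := fun k => by
    rw [hw, ← Complex.exp_nat_mul, ← Complex.exp_ofReal_mul_I_re]
    congr 2
    push_cast
    field_simp
  have h2 : ∑ l ∈ range M, (cos (2 * π * m * (2 * l / (2 * M))) -
      cos (2 * π * m * ((2 * l + 1) / (2 * M)))) = ((1 - w) * ∑ l ∈ range M, (w ^ 2) ^ l).re := by
    rw [mul_sum, Complex.re_sum]
    refine sum_congr rfl fun l _ => ?_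
    have h2 := h1 (2 * l)
    have h3 := h1 (2 * l + 1)
    push_cast at h2 h3
    rw [h2, h3, ← Complex.sub_re, ← pow_mul]
    congr 1
    ring
  rw [h2]
  by_cases h : w ^ 2 = 1
  · have : w.re ≤ 1 := (Complex.re_le_norm w).trans_eq (by simp [hw, Complex.norm_exp])
    simp [h, mul_nonneg (sub_nonneg.2 this)]
  · have : (w ^ 2) ^ M = 1 := by
      rw [← pow_mul, hw, ← Complex.exp_nat_mul]
      exact Complex.exp_eq_one_iff.2 ⟨m, by push_cast; field_simp⟩
    simp [geom_sum_eq h, this]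

theorem result : ∃ (d : ℝ) (g : ℝ → ℝ) (C : ℤ → ℂ), 0 < d ∧ d ≤ 1 ∧ Continuous g ∧
    Function.Periodic g 1 ∧
    (∀ x : ℝ, HasSum (fun k : ℤ => C k * Complex.exp (2 * π * Complex.I * k * x)) (g x)) ∧
    CondH d C ∧ CondNV d C ∧ Continuous (G d g) ∧ (∀ N, 0 < N → (squares (G d g) N).Finite) ∧
    ((7 / 4 - d / 2 : ℝ) : EReal) < upperDim (G d g) := by
  have i1 : Function.Injective fun j : ℕ => 256 ^ j := Nat.pow_right_injective (by norm_num)
  set c : ℕ → ℝ := Function.extend (fun j : ℕ => 256 ^ j) (fun j => (1 / 40) ^ j) 0 with hc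
  have c1 : ∀ j, c (256 ^ j) = (1 / 40) ^ j := fun j => i1.extend_apply _ _ j
  have c2 : ∀ m ∉ Set.range fun j : ℕ => 256 ^ j, c m = 0 := fun m hm =>
    Function.extend_apply' _ _ _ hm
  have c0 : ∀ m, 0 ≤ c m := fun m => by
    by_cases h : m ∈ Set.range fun j : ℕ => 256 ^ j
    · obtain ⟨j, rfl⟩ := h
      exact (c1 j).ge.trans' (by positivity)
    · exact (c2 m h).ge
  have c3 : c 0 = 0 := c2 0 fun ⟨j, h⟩ => (pow_pos (by norm_num) j).ne' h
  have s1 : Summable fun m : ℕ => c m * (m : ℝ) ^ (5 / 8 : ℝ) := by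
    refine (i1.summable_iff fun m hm => by simp [c2 m hm]).1
      ((summable_geometric_of_lt_one (r := 4 / 5) (by norm_num) (by norm_num)).congr fun j => ?_)
    simp only [Function.comp, c1]
    push_cast
    rw [← rpow_pow_comm (by norm_num), ← mul_pow, show (256 : ℝ) = 2 ^ (8 : ℝ) by norm_num,
      ← rpow_mul two_pos.le]
    norm_num
  have s2 : ∀ e : ℝ, e ≤ 5 / 8 → Summable fun m : ℕ => c m * (m : ℝ) ^ e := fun e he =>
    s1.of_nonneg_of_le (fun m => mul_nonneg (c0 m) (by positivity)) fun m => by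
      rcases m.eq_zero_or_pos with rfl | h
      · simp [c3]
      · exact mul_le_mul_of_nonneg_left
          (rpow_le_rpow_of_exponent_le (by exact_mod_cast h) he) (c0 m)
  have s3 : Summable c := by simpa using s2 0 (by norm_num)
  have b1 : ∀ (m : ℕ) (x : ℝ), ‖c m * cos (2 * π * m * x)‖ ≤ c m := fun m x => by
    rw [norm_mul, norm_of_nonneg (c0 m)]
    exact mul_le_of_le_one_right (c0 m) (abs_cos_le_one _)
  set g : ℝ → ℝ := fun x => ∑' m : ℕ, c m * cos (2 * π * m * x) with hg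
  have g1 : ∀ x, HasSum (fun m : ℕ => c m * cos (2 * π * m * x)) (g x) := fun x =>
    (s3.of_norm_bounded fun m => b1 m x).hasSum
  have g2 : Continuous g := continuous_tsum (fun m => by fun_prop) s3 b1
  have s4 : Summable fun n : ℕ => (∑' m, c m) / (n + 1 : ℝ) ^ (1 + 1 : ℝ) := by
    simpa [div_eq_mul_inv] using ((summable_nat_add_iff 1).2
      (summable_nat_rpow_inv.2 (show (1 : ℝ) < 1 + 1 by norm_num))).mul_left (∑' m, c m)
  have b2 : ∀ (n : ℕ) (x : ℝ), ‖g ((n + 1) ^ 2 * x) / (n + 1 : ℝ) ^ (1 + 1 : ℝ)‖ ≤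
      (∑' m, c m) / (n + 1 : ℝ) ^ (1 + 1 : ℝ) := fun n x => by
    rw [norm_div, norm_of_nonneg (by positivity : 0 ≤ (n + 1 : ℝ) ^ (1 + 1 : ℝ))]
    gcongr
    exact tsum_of_norm_bounded s3.hasSum fun m => b1 m _
  have G1 : ∀ x, HasSum (fun n : ℕ => g ((n + 1) ^ 2 * x) / (n + 1 : ℝ) ^ (1 + 1 : ℝ)) (G 1 g x) :=
    fun x => (s4.of_norm_bounded fun n => b2 n x).hasSum
  have G2 : Continuous (G 1 g) :=
    continuous_tsum (fun n => (g2.comp (by fun_prop)).div_const _) s4 b2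
  refine ⟨1, g, fun k => (c k.natAbs / 2 : ℝ), one_pos, le_rfl, g2, fun x => ?_, fun x => ?_,
    ⟨1 / 4, by norm_num, ?_⟩, ⟨1, one_pos, squarefree_one, ?_⟩, G2, fun N => fin G2, ?_⟩
  · refine tsum_congr fun m => ?_
    rw [mul_add, mul_one, mul_comm (2 * π) m, cos_add_nat_mul_two_pi]
  · have h1 : Summable fun k : ℤ => ((c k.natAbs / 2 : ℝ) : ℂ) *
        Complex.exp (2 * π * Complex.I * k * x) :=
      .of_norm (.of_nat_of_neg (by simpa [Complex.norm_exp, abs_of_nonneg (c0 _)] using s3.div_const 2)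
        (by simpa [Complex.norm_exp, abs_of_nonneg (c0 _)] using s3.div_const 2))
    have h2 := h1.hasSum.nat_add_neg
    simp only [Int.natAbs_zero, c3, zero_div, Complex.ofReal_zero, zero_mul, add_zero] at h2
    convert h1.hasSum
    refine (Complex.hasSum_ofReal.2 (g1 x)).unique ?_
    convert h2 using 2 with m
    simp only [Int.natAbs_natCast, Int.natAbs_neg]
    push_cast
    rw [Complex.cos, show 2 * π * m * x * Complex.I = 2 * π * Complex.I * m * x by ring,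
      show -(2 * π * m * x) * Complex.I = 2 * π * Complex.I * -m * x by ring]
    ring
  · refine ((summable_nat_add_iff 1).2 (s1.div_const 2)).congr fun k => ?_
    have : (k + 1 : ℤ).natAbs = k + 1 := by omega
    simp only [this, Complex.norm_real, norm_of_nonneg (div_nonneg (c0 _) two_pos.le)]
    push_cast
    norm_num
    ring
  · have h1 : ∀ m : ℕ, (((m : ℤ) + 1) ^ 2 * (1 : ℕ)).natAbs = (m + 1) ^ 2 := fun m => by
      zify
      simp
    simp only [h1, ← Complex.ofReal_mul, ← Complex.ofReal_tsum, Complex.ofReal_ne_zero]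
    refine (Summable.tsum_pos ?_ (fun m => mul_nonneg (div_nonneg (c0 _) two_pos.le)
      (by positivity)) 0 (by simpa using (c1 0).ge.trans_lt' (by simp))).ne'
    refine (((s2 (1 / 2) (by norm_num)).div_const 2).comp_injective (i := fun m => (m + 1) ^ 2)
      fun a b h => by simpa using h).congr fun m => ?_
    simp only [Function.comp]
    push_cast
    ring_nf
  · refine lt_of_lt_of_le (b := ((4 / 3 : ℝ) : EReal)) (EReal.coe_lt_coe_iff.2 (by norm_num))
      (le_limsup_of_frequently_le (((tendsto_pow_atTop_atTop_of_one_lt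
        (show 1 < 256 by norm_num)).const_mul_atTop' two_pos).frequently
          (.of_forall fun J => EReal.coe_le_coe_iff.2 ?_)))
    have hM : 0 < 256 ^ J := by positivity
    generalize hM' : 256 ^ J = M at hM
    have h0 : (1 : ℝ) ≤ M := by exact_mod_cast hM
    have h1 : ∀ n : ℕ, HasSum (fun m : ℕ => c m * ∑ l ∈ range M,
        (cos (2 * π * (m * n ^ 2 : ℕ) * (2 * l / (2 * M))) -
          cos (2 * π * (m * n ^ 2 : ℕ) * ((2 * l + 1) / (2 * M)))))
        (∑ l ∈ range M, (g (n ^ 2 * (2 * l / (2 * M))) - g (n ^ 2 * ((2 * l + 1) / (2 * M))))) :=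
      fun n => by
        simpa [mul_sum, mul_sub, mul_assoc] using hasSum_sum (s := range M) fun l _ =>
          (g1 (n ^ 2 * (2 * l / (2 * M)))).sub (g1 (n ^ 2 * ((2 * l + 1) / (2 * M))))
    have h2 := le_hasSum (h1 1) M fun m _ => mul_nonneg (c0 m) (trig _ hM)
    have h3 := le_hasSum (hasSum_sum (s := range M) fun l _ => (G1 (2 * l / (2 * M))).sub
      (G1 ((2 * l + 1) / (2 * M)))) 0 fun n _ => by
        simp only [← sub_div, ← sum_div]
        refine div_nonneg ?_ (by positivity)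
        simpa using (h1 (n + 1)).nonneg fun m => mul_nonneg (c0 m) (trig _ hM)
    have h4 := count G2 hM
    rw [sum_congr rfl (g := fun _ => (2 : ℝ)) fun l _ => by
      rw [show 2 * π * (M * 1 ^ 2 : ℕ) * (2 * l / (2 * M)) = l * (2 * π) by push_cast; field_simp,
        show 2 * π * (M * 1 ^ 2 : ℕ) * ((2 * l + 1) / (2 * M)) = l * (2 * π) + π by
          push_cast; field_simp, cos_nat_mul_two_pi, cos_nat_mul_two_pi_add_pi]
      norm_num, ← hM', c1, hM'] at h2
    simp only [Nat.cast_zero, zero_add, one_rpow, div_one, Nat.cast_one, sum_const, card_range,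
      nsmul_eq_mul] at h2 h3
    have h5 : 2 * (M : ℝ) * ((1 / 40) ^ J * (M * 2)) ≤ _ :=
      (mul_le_mul_of_nonneg_left (h2.trans h3) (by positivity)).trans h4
    have h6 : (1 : ℝ) ≤ ((1 / 40) ^ J) ^ 3 * M ^ 2 := by
      rw [← hM', Nat.cast_pow, ← pow_mul, ← pow_mul, mul_comm J, mul_comm J, pow_mul, pow_mul,
        ← mul_pow]
      exact one_le_pow₀ (by norm_num)
    have h7 : ((2 * M : ℕ) : ℝ) ^ 4 ≤ ((squares (G 1 g) (2 * M)).ncard : ℝ) ^ 3 := by
      refine le_trans ?_ (pow_le_pow_left₀ (by positivity) h5 3)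
      push_cast
      nlinarith [mul_le_mul_of_nonneg_left h6 (by positivity : (0 : ℝ) ≤ M ^ 4), pow_pos (by linarith : (0 : ℝ) < M) 4]
    have h8 := log_le_log (by positivity) h7
    rw [log_pow, log_pow] at h8
    rw [le_div_iff₀ (log_pos (by push_cast; linarith))]
    push_cast at h8 ⊢
    linarith

end Pool.Agent.Results.MP_dace02_an.No
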